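import Pool.Agent.K3h14.LM.Stm

/-!
# Rearrangement of the sum in `excess`
-/

set_option autoImplicit false

namespace Pool.Agent.K3h92.LM

theorem key (n : ℕ) (f : ℕ → ℤ) (h0 : f n = 0) :
    ∑ i ∈ Finset.range (2 * n + 1), f i = ∑ c ∈ Finset.range (n + 1), (f (n + c) + f (n - c)) := by
  rw [Finset.sum_add_distrib]
  have h1 : ∑ c ∈ Finset.range (n + 1), f (n - c) = ∑ i ∈ Finset.range (n + 1), f i := by
    rw [← Finset.sum_range_reflect f (n + 1)]
    rfl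
  rw [h1, Finset.sum_range_succ f n, h0, add_zero, show 2 * n + 1 = n + (n + 1) by ring,
    Finset.sum_range_add, add_comm]

theorem t_EXC0 : ∀ (n : ℕ) (d : ℕ → ℕ), (∀ c ≤ n, d (n - c) ≤ d (n + c)) →
    0 ≤ ∑ i ∈ Finset.range (2 * n + 1), ((i : ℤ) - n) * (d i : ℤ) ∧
    ((∑ i ∈ Finset.range (2 * n + 1), ((i : ℤ) - n) * (d i : ℤ)) = 0 ↔
      ∀ c ≤ n, d (n - c) = d (n + c)) := by
  intro n d h
  have e : ∑ i ∈ Finset.range (2 * n + 1), ((i : ℤ) - n) * (d i : ℤ) =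
      ∑ c ∈ Finset.range (n + 1), (c : ℤ) * ((d (n + c) : ℤ) - d (n - c)) := by
    rw [key n (fun i => ((i : ℤ) - n) * (d i : ℤ)) (by simp)]
    refine Finset.sum_congr rfl fun c hc => ?_
    have hc' : c ≤ n := Nat.lt_succ_iff.1 (Finset.mem_range.1 hc)
    simp only [Nat.cast_add, Nat.cast_sub hc']
    ring
  have hnn : ∀ c ∈ Finset.range (n + 1), (0 : ℤ) ≤ (c : ℤ) * ((d (n + c) : ℤ) - d (n - c)) := by
    intro c hc
    have hc' : c ≤ n := Nat.lt_succ_iff.1 (Finset.mem_range.1 hc)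
    refine mul_nonneg (Int.natCast_nonneg c) (sub_nonneg.2 ?_)
    exact_mod_cast h c hc'
  rw [e]
  refine ⟨Finset.sum_nonneg hnn, ?_⟩
  rw [Finset.sum_eq_zero_iff_of_nonneg hnn]
  constructor
  · intro H c hc
    rcases Nat.eq_zero_or_pos c with rfl | hpos
    · simp
    · have h1 := H c (Finset.mem_range.2 (Nat.lt_succ_of_le hc))
      have h2 : (c : ℤ) ≠ 0 := by exact_mod_cast hpos.ne'
      have h3 := (mul_eq_zero.1 h1).resolve_left h2
      have h4 : (d (n + c) : ℤ) = d (n - c) := sub_eq_zero.1 h3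
      exact_mod_cast h4.symm
  · intro H c hc
    have hc' : c ≤ n := Nat.lt_succ_iff.1 (Finset.mem_range.1 hc)
    rw [H c hc', sub_self, mul_zero]

theorem t_EXC : Pool.Agent.K3h14.LM.S_EXC := t_EXC0

end Pool.Agent.K3h92.LM
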